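import Pool.Agent.H37.CNT.Stmts

/-!
# Board `cnt`, row E2F: the extraspecial 2-groups
-/

set_option autoImplicit false

namespace Pool.CND

open Finset

theorem e2f_den (h : ℕ) : ((1 : ℚ) + 1 / 2 ^ h).den = if h = 0 then 1 else 2 ^ h := by
  by_cases hh : h = 0
  · subst hh
    rw [if_pos rfl]
    norm_num
  · rw [if_neg hh]
    have h1 : (1 : ℚ) + 1 / 2 ^ h = (((2 ^ h + 1 : ℕ) : ℤ) : ℚ) / (((2 ^ h : ℕ) : ℤ) : ℚ) := by
      have h2 : (2 : ℚ) ^ h ≠ 0 := by positivity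
      push_cast
      field_simp
    have h3 := Rat.den_div_eq_of_coprime (a := ((2 ^ h + 1 : ℕ) : ℤ)) (b := ((2 ^ h : ℕ) : ℤ))
      (by positivity) (by
        rw [Int.natAbs_natCast, Int.natAbs_natCast]
        exact (Nat.coprime_self_add_right (m := 2 ^ h) (n := 1)).2 (Nat.coprime_one_right _) |>.symm)
    rw [← h1] at h3
    exact_mod_cast h3

theorem e2f_thm (hE2M : S_E2M) (hE2I : S_E2I) (hE2S : S_E2S) (hS2C : S_S2C) (hPUN : S_PUN)
    (hPTA : S_PTA) (hCNG : S_CNG) (hNGE : S_NGE) : S_E2F := by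
  intro k G _ _ _ _ _ h hh hG
  refine ⟨fun hpl => ?_, fun hpl => ?_⟩
  · refine Nat.dvd_antisymm ?_ ?_
    · obtain ⟨A, hA, hAc⟩ := hpl
      have h1 := (hPTA 2 k G A h 1 Nat.prime_two inferInstance hA (by norm_num) (by
        rw [hG.card, hAc, mul_one, ← pow_add]
        congr 1
        omega)).2 rfl hh
      rwa [mul_one] at h1
    · obtain ⟨H, hHw, hHX, hHP⟩ := hE2S k h hh
      obtain ⟨e⟩ := hE2I h G H hh hG hHX ⟨fun _ => hHP, fun _ => hpl⟩
      have hfin : Finite H := Finite.of_equiv G e.toEquiv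
      rw [hCNG k G H ⟨e⟩]
      have h1 := hS2C 2 k (h + 1) H (by omega) hHw
      have h2 : (1 : ℚ) + ((2 : ℕ) : ℚ) ^ (h + 1) * ((2 : ℕ) : ℚ) / Nat.card H =
          1 + 1 / 2 ^ (h - 1) := by
        rw [hHX.card]
        obtain ⟨j, rfl⟩ : ∃ j, h = j + 1 := ⟨h - 1, by omega⟩
        rw [Nat.add_sub_cancel]
        push_cast
        have h3 : (2 : ℚ) ^ j ≠ 0 := by positivity
        rw [show 2 * (j + 1) + 1 = (j + 1 + 1) + 1 + j by ring, pow_add (2 : ℚ) (j + 1 + 1 + 1) j]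
        field_simp
        ring
      rw [h2] at h1
      have h3 := hPUN 2 k H _ Nat.prime_two inferInstance h1
      rw [e2f_den] at h3
      by_cases h4 : h - 1 = 0
      · rw [h4, pow_zero]
        exact one_dvd _
      · rwa [if_neg h4] at h3
  · obtain ⟨hX, hP⟩ := hE2M k h hh
    obtain ⟨e⟩ := hE2I h G (EG k 2 h) hh hG hX ⟨fun h1 => absurd h1 hpl, fun h1 => absurd h1 hP⟩
    rw [hCNG k G (EG k 2 h) ⟨e⟩]
    exact hNGE 2 k h hh

end Pool.CND
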